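import Pool.Agent.Helper10.Pic.Lib

set_option autoImplicit false

/-!
# Lower bound for the sum over the cusps of the Picard modular group
-/

namespace Pool.Agent.Helper37.Pic

open Pool.Agent.Helper10.Pic
open scoped ComplexConjugate

theorem s3 : Real.sqrt 3 * Real.sqrt 3 = 3 := Real.mul_self_sqrt (by norm_num)

theorem om_sq : om * om = -1 - om := by
  have h := s3
  unfold om
  apply Complex.ext
  · simp only [Complex.mul_re, Complex.sub_re, Complex.neg_re, Complex.one_re]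
    nlinarith
  · simp only [Complex.mul_im, Complex.sub_im, Complex.neg_im, Complex.one_im]
    nlinarith

theorem om_conj : conj om = -1 - om := by
  unfold om
  apply Complex.ext
  · simp only [Complex.conj_re, Complex.sub_re, Complex.neg_re, Complex.one_re]
    norm_num
  · simp only [Complex.conj_im, Complex.sub_im, Complex.neg_im, Complex.one_im]
    ring

theorem Eis_mul {x y : ℂ} (hx : x ∈ Eis) (hy : y ∈ Eis) : x * y ∈ Eis := by
  obtain ⟨a, b, rfl⟩ := hx
  obtain ⟨c, d, rfl⟩ := hy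
  refine ⟨a * c - b * d, a * d + b * c - b * d, ?_⟩
  push_cast
  linear_combination (b : ℂ) * d * om_sq

theorem Eis_conj {x : ℂ} (hx : x ∈ Eis) : conj x ∈ Eis := by
  obtain ⟨a, b, rfl⟩ := hx
  refine ⟨a - b, -b, ?_⟩
  rw [map_add, map_mul, om_conj, map_intCast, map_intCast]
  push_cast
  ring

/-- scalar multiplication by a nonzero number -/
noncomputable def sc (e : ℂ) (he : e ≠ 0) : V3 ≃ₗ[ℂ] V3 where
  toFun x := e • x
  map_add' x y := smul_add e x y
  map_smul' c x := by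
    rw [RingHom.id_apply, smul_comm]
  invFun x := e⁻¹ • x
  left_inv x := by
    simp only
    rw [smul_smul, inv_mul_cancel₀ he, one_smul]
  right_inv x := by
    simp only
    rw [smul_smul, mul_inv_cancel₀ he, one_smul]

theorem sc_apply (e : ℂ) (he : e ≠ 0) (x : V3) : sc e he x = e • x := rfl

theorem herm_smul_right (x y : V3) (e : ℂ) : herm x (e • y) = conj e * herm x y := by
  unfold herm
  simp only [Prod.smul_fst, Prod.smul_snd, smul_eq_mul, map_mul]
  ring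

theorem herm_smul_left (x y : V3) (e : ℂ) : herm (e • x) y = e * herm x y := by
  unfold herm
  simp only [Prod.smul_fst, Prod.smul_snd, smul_eq_mul]
  ring

theorem sc_mem {e : ℂ} (he : e ≠ 0) (h1 : e ∈ Eis) (h2 : e * conj e = 1) : sc e he ∈ Gam := by
  refine ⟨fun x y => ?_, fun x => ?_⟩
  · rw [sc_apply, sc_apply, herm_smul_right, herm_smul_left]
    linear_combination herm x y * h2
  · rw [sc_apply]
    have key : ∀ y : ℂ, e * y ∈ Eis ↔ y ∈ Eis := by
      intro y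
      refine ⟨fun h => ?_, fun h => Eis_mul h1 h⟩
      have := Eis_mul (Eis_conj h1) h
      have e1 : conj e * (e * y) = y := by linear_combination y * h2
      rwa [e1] at this
    exact and_congr (key _) (and_congr (key _) (key _))

/-- coordinates of the units -/
def uA : Fin 6 → ℤ := ![1, 1, 0, -1, -1, 0]

/-- coordinates of the units -/
def uB : Fin 6 → ℤ := ![0, 1, 1, 0, -1, -1]

/-- the units -/
noncomputable def un (j : Fin 6) : ℂ := uA j + uB j * om

theorem un_mem (j : Fin 6) : un j ∈ Eis := ⟨uA j, uB j, rfl⟩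

theorem un_conj (j : Fin 6) : un j * conj (un j) = 1 := by
  have h : uA j ^ 2 - uA j * uB j + uB j ^ 2 = 1 := by
    revert j
    decide
  have h' : (uA j : ℂ) ^ 2 - uA j * uB j + (uB j : ℂ) ^ 2 = 1 := by exact_mod_cast h
  unfold un
  rw [map_add, map_mul, om_conj, map_intCast, map_intCast]
  linear_combination h' - (uB j : ℂ) ^ 2 * om_sq

theorem un_ne (j : Fin 6) : un j ≠ 0 := by
  intro h
  have := un_conj j
  rw [h, zero_mul] at this
  exact zero_ne_one this

theorem un_norm (j : Fin 6) : ‖un j‖ = 1 := by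
  have h := un_conj j
  rw [Complex.mul_conj] at h
  have h' : Complex.normSq (un j) = 1 := by exact_mod_cast h
  rw [Complex.normSq_eq_norm_sq] at h'
  have := norm_nonneg (un j)
  nlinarith

theorem uAB_inj : ∀ i j : Fin 6, uA i = uA j → uB i = uB j → i = j := by decide

theorem un_inj : Function.Injective un := by
  intro i j h
  have h0 : Real.sqrt 3 ≠ 0 := by positivity
  have him := congrArg Complex.im h
  have hre := congrArg Complex.re h
  unfold un om at him hre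
  simp only [Complex.add_im, Complex.intCast_im, Complex.mul_im, Complex.intCast_re, zero_mul,
    add_zero, zero_add, Complex.add_re, Complex.mul_re, sub_zero] at him hre
  have hB' : (uB i : ℝ) = uB j := by
    have := mul_right_cancel₀ (by positivity : Real.sqrt 3 / 2 ≠ 0) him
    exact this
  have hB : uB i = uB j := by exact_mod_cast hB'
  rw [hB] at hre
  have hA' : (uA i : ℝ) = uA j := by linarith
  have hA : uA i = uA j := by exact_mod_cast hA'
  exact uAB_inj i j hA hB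

theorem uval_smul (j : Fin 6) (w : V3) (q : Pt) : uval (un j • w) q = uval w q := by
  unfold uval
  rw [herm_smul_right, norm_mul, Complex.norm_conj, un_norm, one_mul]

theorem w0_mem : w0 ∈ Orb := ⟨1, Gam.one_mem, rfl⟩

theorem smul_mem {w : V3} (hw : w ∈ Orb) (j : Fin 6) : un j • w ∈ Orb := by
  obtain ⟨γ, hγ, rfl⟩ := hw
  exact ⟨sc (un j) (un_ne j) * γ, Gam.mul_mem (sc_mem (un_ne j) (un_mem j) (un_conj j)) hγ, rfl⟩

/-- exchange of the isotropic coordinates -/
noncomputable def J : V3 ≃ₗ[ℂ] V3 where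
  toFun x := (x.2.2, x.2.1, x.1)
  map_add' _ _ := rfl
  map_smul' _ _ := rfl
  invFun x := (x.2.2, x.2.1, x.1)
  left_inv _ := rfl
  right_inv _ := rfl

theorem J_apply (x : V3) : J x = (x.2.2, x.2.1, x.1) := rfl

theorem J_mem : J ∈ Gam := by
  refine ⟨fun x y => ?_, fun x => ?_⟩
  · rw [J_apply, J_apply]
    unfold herm
    dsimp only
    ring
  · rw [J_apply]
    constructor
    · rintro ⟨h1, h2, h3⟩
      exact ⟨h3, h2, h1⟩
    · rintro ⟨h1, h2, h3⟩
      exact ⟨h3, h2, h1⟩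

theorem T_mem {a b : ℂ} (ha : a ∈ Eis) (hb : b ∈ Eis) (h : 2 * a.re + ‖b‖ ^ 2 = 0) :
    T a b ∈ Gam := by
  have hc : a + conj a + b * conj b = 0 := by
    rw [Complex.add_conj, Complex.mul_conj, Complex.normSq_eq_norm_sq]
    exact_mod_cast h
  have hT : ∀ x, T a b x = (x.1 - conj b * x.2.1 + a * x.2.2, x.2.1 + b * x.2.2, x.2.2) :=
    fun x => rfl
  refine ⟨fun x y => ?_, fun x => ?_⟩
  · rw [hT, hT]
    unfold herm
    simp only [map_add, map_sub, map_mul, Complex.conj_conj]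
    linear_combination x.2.2 * conj y.2.2 * hc
  · rw [hT]
    have hb' := Eis_conj hb
    constructor
    · rintro ⟨h1, h2, h3⟩
      dsimp only at h1 h2 h3
      have h4 : x.2.1 ∈ Eis := by
        have := Eis.sub_mem h2 (Eis_mul hb h3)
        rwa [add_sub_cancel_right] at this
      have h5 : x.1 ∈ Eis := by
        have := Eis.add_mem (Eis.sub_mem h1 (Eis_mul ha h3)) (Eis_mul hb' h4)
        have e : x.1 - conj b * x.2.1 + a * x.2.2 - a * x.2.2 + conj b * x.2.1 = x.1 := by ring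
        rwa [e] at this
      exact ⟨h5, h4, h3⟩
    · rintro ⟨h1, h2, h3⟩
      exact ⟨Eis.add_mem (Eis.sub_mem h1 (Eis_mul hb' h2)) (Eis_mul ha h3),
        Eis.add_mem h2 (Eis_mul hb h3), h3⟩

theorem vec_mem {a b : ℂ} (ha : a ∈ Eis) (hb : b ∈ Eis) (h : 2 * a.re + ‖b‖ ^ 2 = 0) :
    ((a, b, 1) : V3) ∈ Orb := by
  refine ⟨T a b * J, Gam.mul_mem (T_mem ha hb h) J_mem, ?_⟩
  rw [LinearEquiv.mul_apply, J_apply]
  change ((a, b, 1) : V3) = (0 - conj b * 0 + a * 1, 0 + b * 1, 1)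
  rw [mul_zero, sub_zero, zero_add, zero_add, mul_one, mul_one]

theorem sum_reduce (huv : ∀ {g : V3 ≃ₗ[ℂ] V3}, g ∈ UG → ∀ (w : V3) {p : Pt},
      p ∈ SD → uval w (act g p) = uval (g⁻¹ w) p)
    {g : V3 ≃ₗ[ℂ] V3} (hg : g ∈ Gam) {p : Pt} (hp : p ∈ SD) (F : ℝ → ENNReal) :
    ∑' w : Orb, F (uval w (act g p)) = ∑' w : Orb, F (uval w p) := by
  have h1 : ∀ h ∈ Gam, ∀ w ∈ Orb, h w ∈ Orb := by
    rintro h hh w ⟨γ, hγ, rfl⟩
    exact ⟨h * γ, Gam.mul_mem hh hγ, rfl⟩
  let e : Orb ≃ Orb :=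
    { toFun := fun w => ⟨g⁻¹ w, h1 _ (Gam.inv_mem hg) _ w.2⟩
      invFun := fun w => ⟨g w, h1 _ hg _ w.2⟩
      left_inv := fun w => Subtype.ext (g.apply_symm_apply w)
      right_inv := fun w => Subtype.ext (g.symm_apply_apply w) }
  rw [← e.tsum_eq (fun w : Orb => F (uval w p))]
  refine tsum_congr (fun w => ?_)
  rw [huv hg.1 w hp]
  rfl

/-- the contributions of two cusps -/
theorem two_cusps {w : V3} (hw : w ∈ Orb) (hw1 : w.2.2 = 1) (q : Pt) (F : ℝ → ENNReal) :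
    6 * (F (uval w0 q) + F (uval w q)) ≤ ∑' w : Orb, F (uval w q) := by
  let f : Fin 6 ⊕ Fin 6 → Orb := fun o => match o with
    | Sum.inl j => ⟨un j • w0, smul_mem w0_mem j⟩
    | Sum.inr j => ⟨un j • w, smul_mem hw j⟩
  have hl : ∀ j, (f (Sum.inl j) : V3) = un j • w0 := fun j => rfl
  have hr : ∀ j, (f (Sum.inr j) : V3) = un j • w := fun j => rfl
  have hl3 : ∀ j, (f (Sum.inl j) : V3).2.2 = 0 := by
    intro j
    rw [hl]
    change un j * 0 = 0
    rw [mul_zero]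
  have hl1 : ∀ j, (f (Sum.inl j) : V3).1 = un j := by
    intro j
    rw [hl]
    change un j * 1 = un j
    rw [mul_one]
  have hr3 : ∀ j, (f (Sum.inr j) : V3).2.2 = un j := by
    intro j
    rw [hr]
    change un j * w.2.2 = un j
    rw [hw1, mul_one]
  have hf : Function.Injective f := by
    intro a b hab
    have hab' : (f a : V3) = f b := congrArg Subtype.val hab
    match a, b with
    | Sum.inl i, Sum.inl j =>
      have := congrArg Prod.fst hab'
      rw [hl1, hl1] at this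
      rw [un_inj this]
    | Sum.inl i, Sum.inr j =>
      exfalso
      have := congrArg (fun x : V3 => x.2.2) hab'
      simp only [hl3, hr3] at this
      exact un_ne j this.symm
    | Sum.inr i, Sum.inl j =>
      exfalso
      have := congrArg (fun x : V3 => x.2.2) hab'
      simp only [hl3, hr3] at this
      exact un_ne i this
    | Sum.inr i, Sum.inr j =>
      have := congrArg (fun x : V3 => x.2.2) hab'
      simp only [hr3] at this
      rw [un_inj this]
  refine le_trans (le_of_eq ?_) (ENNReal.tsum_comp_le_tsum_of_injective hf _)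
  rw [tsum_fintype, Fintype.sum_sum_type]
  have e1 : ∀ j ∈ (Finset.univ : Finset (Fin 6)), F (uval (f (Sum.inl j)) q) = F (uval w0 q) := by
    intro j _
    rw [hl, uval_smul]
  have e2 : ∀ j ∈ (Finset.univ : Finset (Fin 6)), F (uval (f (Sum.inr j)) q) = F (uval w q) := by
    intro j _
    rw [hr, uval_smul]
  rw [Finset.sum_congr rfl e1, Finset.sum_congr rfl e2, Finset.sum_const, Finset.sum_const,
    Finset.card_univ, Fintype.card_fin, mul_add]
  simp only [nsmul_eq_mul, Nat.cast_ofNat]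

theorem muP_lower {u : ℝ} (hu : 1 ≤ u) : 35 / 2 * u ≤ muP u := by
  unfold muP
  have hpi : 314 / 100 < Real.pi := by
    have := Real.pi_gt_d2
    norm_num at this ⊢
    exact this
  have h9 : 985 / 100 < Real.pi ^ 2 := by nlinarith
  have h3 : 0 < Real.sqrt 3 := by positivity
  have h32 : Real.sqrt 3 ≤ 2 := by
    have := s3
    nlinarith
  refine le_min ?_ ?_
  · nlinarith
  · have e1 : 6 ≤ 4 * Real.pi / Real.sqrt 3 := by
      rw [le_div_iff₀ h3]
      nlinarith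
    have e2 : 6 * u ≤ 4 * Real.pi / Real.sqrt 3 * u := mul_le_mul_of_nonneg_right e1 (by linarith)
    have e3 : 13 ≤ 4 * Real.pi ^ 2 / 3 := by linarith
    have e4 : 13 * u ^ 2 ≤ 4 * Real.pi ^ 2 / 3 * u ^ 2 :=
      mul_le_mul_of_nonneg_right e3 (by positivity)
    nlinarith

theorem real_contra {u d y : ℝ} (hu : 1 < u) (hu2 : u ≤ 48 / 35) (hd0 : 0 ≤ d) (hd : d ≤ 1 / 3)
    (hy0 : 0 ≤ y) (hy1 : y ≤ Real.sqrt 3) (hk : 4 * u ≤ (u + d) ^ 2 + (Real.sqrt 3 - y) ^ 2)
    (hB : 12 * ((d + u + 1) ^ 2 + y ^ 2) * d ≤ ((d + u + 1) ^ 2 + y ^ 2 + 4 * d - 4 * u) ^ 2) :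
    False := by
  have h3 := s3
  have h4 : 0 ≤ Real.sqrt 3 := Real.sqrt_nonneg 3
  have h1 : Real.sqrt 3 * y + (u - 1) * (3 - u) ≤ 2 * d * u + d ^ 2 := by
    nlinarith [mul_nonneg hy0 (sub_nonneg.2 hy1)]
  have h2 : 2 * d * u + d ^ 2 ≤ 323 / 105 * d := by nlinarith
  have h5 : (u - 1) * (57 / 35) ≤ (u - 1) * (3 - u) :=
    mul_le_mul_of_nonneg_left (by linarith) (by linarith)
  have h6 : 0 ≤ Real.sqrt 3 * y := mul_nonneg h4 hy0
  have h7 : u - 1 ≤ 17 / 9 * d := by linarith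
  have h8 : Real.sqrt 3 * y ≤ 323 / 105 * d := by nlinarith
  have h9 : 3 * y ^ 2 ≤ (323 / 105 * d) ^ 2 := by
    have : (Real.sqrt 3 * y) ^ 2 ≤ (323 / 105 * d) ^ 2 := by
      gcongr
    nlinarith
  have hdpos : 0 < d := by linarith
  have h10 : (u - 1) ^ 2 ≤ (17 / 9 * d) ^ 2 := by
    have : 0 ≤ u - 1 := by linarith
    gcongr
  have h11 : (d + u + 1) ^ 2 + y ^ 2 + 4 * d - 4 * u =
      (u - 1) ^ 2 + 2 * d * (u + 1) + d ^ 2 + y ^ 2 + 4 * d := by ring
  have hdd : d ^ 2 ≤ 1 / 3 * d := by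
    rw [sq]
    exact mul_le_mul_of_nonneg_right hd hd0
  have hdu : d * u ≤ d * (48 / 35) := mul_le_mul_of_nonneg_left hu2 hd0
  have h12 : (u - 1) ^ 2 + 2 * d * (u + 1) + d ^ 2 + y ^ 2 + 4 * d ≤ 1132 / 100 * d := by
    linarith
  have h13 : 0 ≤ (u - 1) ^ 2 + 2 * d * (u + 1) + d ^ 2 + y ^ 2 + 4 * d := by positivity
  have h14 : ((u - 1) ^ 2 + 2 * d * (u + 1) + d ^ 2 + y ^ 2 + 4 * d) ^ 2 ≤
      (1132 / 100 * d) ^ 2 := by
    gcongr
  rw [h11] at hB
  have h15 : 4 ≤ (d + u + 1) ^ 2 + y ^ 2 := by nlinarith [sq_nonneg y]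
  have h16 : 4 * d ≤ ((d + u + 1) ^ 2 + y ^ 2) * d := mul_le_mul_of_nonneg_right h15 hd0
  have h17 := hB.trans h14
  rw [mul_pow] at h17
  linarith

/-- the best of the six units -/
theorem best {X Y M : ℝ} (h1 : |X| ≤ M) (h2 : |X| + Real.sqrt 3 * |Y| ≤ 2 * M) :
    3 * (X ^ 2 + Y ^ 2) ≤ 4 * M ^ 2 := by
  have h3 := s3
  have hX := abs_nonneg X
  have hY := abs_nonneg Y
  have eX := sq_abs X
  have eY := sq_abs Y
  have h4 : Real.sqrt 3 * |Y| ≤ 2 * M - |X| := by linarith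
  have h5 : (Real.sqrt 3 * |Y|) ^ 2 ≤ (2 * M - |X|) ^ 2 := by
    gcongr
  nlinarith [mul_nonneg hX (sub_nonneg.2 h1)]

theorem uval_vec (a b : ℂ) (q : Pt) :
    uval (a, b, 1) q = ‖q.1 + q.2 * conj b + conj a‖ ^ 2 / hgt q := by
  unfold uval herm vec
  simp only [map_one, mul_one, one_mul]

theorem nsq (z : ℂ) : ‖z‖ ^ 2 = z.re ^ 2 + z.im ^ 2 := by
  rw [← Complex.normSq_eq_norm_sq, Complex.normSq_apply]
  ring

theorem exists_w {q : Pt} (h0 : 1 < hgt q) (h1 : hgt q ≤ 48 / 35) (hd : ‖q.2‖ ^ 2 ≤ 1 / 3)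
    (hz : |q.1.im| ≤ Real.sqrt 3 / 2) : ∃ w ∈ Orb, w.2.2 = 1 ∧ uval w q < 1 := by
  by_contra hcon
  push Not at hcon
  have hupos : 0 < hgt q := by linarith
  have key : ∀ a ∈ Eis, ∀ b ∈ Eis, 2 * a.re + ‖b‖ ^ 2 = 0 →
      hgt q ≤ ‖q.1 + q.2 * conj b + conj a‖ ^ 2 := by
    intro a ha b hb hab
    have h := hcon _ (vec_mem ha hb hab) rfl
    rw [uval_vec, le_div_iff₀ hupos, one_mul] at h
    exact h
  obtain ⟨⟨x, η⟩, ⟨p, r⟩⟩ := q
  have hu : hgt (⟨⟨x, η⟩, ⟨p, r⟩⟩ : Pt) = -(2 * x + (p ^ 2 + r ^ 2)) := by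
    unfold hgt
    rw [nsq]
  rw [hu] at h0 h1 hupos key
  rw [nsq] at hd
  dsimp only at hd hz key
  have h3 := s3
  have h4 : 0 ≤ Real.sqrt 3 := Real.sqrt_nonneg 3
  have k0 := key 0 Eis.zero_mem 0 Eis.zero_mem (by simp)
  rw [map_zero, mul_zero, add_zero, add_zero, nsq] at k0
  dsimp only at k0
  -- the vectors with unit second coordinate
  have main : ∀ s : ℝ, s * s = 3 → |η - s / 2| = Real.sqrt 3 / 2 - |η| →
      (∀ b ∈ Eis, ‖b‖ ^ 2 = 1 → -(2 * x + (p ^ 2 + r ^ 2)) ≤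
        ‖(⟨x, η⟩ : ℂ) + (⟨p, r⟩ : ℂ) * conj b + ⟨-1 / 2, -s / 2⟩‖ ^ 2) → False := by
    intro s hs hsy hb
    have hη := abs_nonneg (η - s / 2)
    set e1 : ℝ := x - 1 / 2 with he1
    set e2 : ℝ := η - s / 2 with he2
    set X : ℝ := e1 * p + e2 * r with hX
    set Y : ℝ := e2 * p - e1 * r with hY
    set K : ℝ := e1 ^ 2 + e2 ^ 2 + (p ^ 2 + r ^ 2) + (2 * x + (p ^ 2 + r ^ 2)) with hK
    have hgen : ∀ b1 b2 : ℝ, (⟨b1, b2⟩ : ℂ) ∈ Eis → b1 ^ 2 + b2 ^ 2 = 1 →
        0 ≤ K + 2 * (X * b1 - Y * b2) := by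
      intro b1 b2 hb1 hb2
      have h := hb _ hb1 (by rw [nsq]; exact hb2)
      rw [nsq] at h
      simp only [Complex.add_re, Complex.add_im, Complex.mul_re, Complex.mul_im, Complex.conj_re,
        Complex.conj_im] at h
      rw [hK, hX, hY, he1, he2]
      have hb3 : (p ^ 2 + r ^ 2) * (b1 ^ 2 + b2 ^ 2) = p ^ 2 + r ^ 2 := by rw [hb2, mul_one]
      linarith
    have g1 := hgen 1 0 ⟨1, 0, by apply Complex.ext <;> simp⟩ (by norm_num)
    have g2 := hgen (-1) 0 ⟨-1, 0, by apply Complex.ext <;> simp⟩ (by norm_num)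
    have g3 := hgen (-1 / 2) (Real.sqrt 3 / 2) ⟨0, 1, by unfold om; apply Complex.ext <;> simp⟩
      (by nlinarith)
    have g4 := hgen (1 / 2) (-(Real.sqrt 3 / 2)) ⟨0, -1, by
      unfold om; apply Complex.ext <;> simp; norm_num⟩ (by nlinarith)
    have g5 := hgen (1 / 2) (Real.sqrt 3 / 2) ⟨1, 1, by
      unfold om; apply Complex.ext <;> simp; norm_num⟩ (by nlinarith)
    have g6 := hgen (-1 / 2) (-(Real.sqrt 3 / 2)) ⟨-1, -1, by
      unfold om; apply Complex.ext <;> simp; norm_num⟩ (by nlinarith)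
    have f1 : |X| ≤ K / 2 := by
      rw [abs_le]
      constructor <;> linarith
    have f2 : |X| + Real.sqrt 3 * |Y| ≤ 2 * (K / 2) := by
      rcases abs_cases X with ⟨hx, _⟩ | ⟨hx, _⟩ <;> rcases abs_cases Y with ⟨hy, _⟩ | ⟨hy, _⟩ <;>
        rw [hx, hy] <;> linarith
    have f3 := best f1 f2
    have f4 : X ^ 2 + Y ^ 2 = (e1 ^ 2 + e2 ^ 2) * (p ^ 2 + r ^ 2) := by
      rw [hX, hY]
      ring
    rw [f4] at f3
    have hd0 : 0 ≤ p ^ 2 + r ^ 2 := by positivity
    have e2sq : (2 * |e2|) ^ 2 = 4 * e2 ^ 2 := by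
      rw [mul_pow, sq_abs]
      norm_num
    have hη2 : Real.sqrt 3 - 2 * |e2| = 2 * |η| := by
      rw [hsy]
      ring
    refine real_contra (u := -(2 * x + (p ^ 2 + r ^ 2))) (d := p ^ 2 + r ^ 2) (y := 2 * |e2|)
      h0 h1 hd0 hd (by positivity) (by have := abs_nonneg η; linarith) ?_ ?_
    · rw [hη2, mul_pow, sq_abs]
      linarith
    · rw [e2sq]
      have h5 : (p ^ 2 + r ^ 2 + -(2 * x + (p ^ 2 + r ^ 2)) + 1) ^ 2 + 4 * e2 ^ 2 =
          4 * (e1 ^ 2 + e2 ^ 2) := by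
        rw [he1]
        ring
      rw [h5]
      have h6 : 4 * (e1 ^ 2 + e2 ^ 2) + 4 * (p ^ 2 + r ^ 2) -
          4 * -(2 * x + (p ^ 2 + r ^ 2)) = 4 * K := by
        rw [hK]
        ring
      rw [h6]
      linarith
  rcases le_total 0 η with hη | hη
  · refine main (Real.sqrt 3) h3 ?_ ?_
    · rw [abs_of_nonneg hη] at hz ⊢
      rw [abs_of_nonpos (by linarith)]
      ring
    · intro b hb hb1
      have := key om ⟨0, 1, by simp⟩ b hb (by rw [hb1]; unfold om; norm_num)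
      have e : conj om = ⟨-1 / 2, -Real.sqrt 3 / 2⟩ := by
        unfold om
        apply Complex.ext
        · rw [Complex.conj_re]
        · rw [Complex.conj_im]
          ring
      rwa [e] at this
  · refine main (-Real.sqrt 3) (by linarith) ?_ ?_
    · rw [abs_of_nonpos hη] at hz ⊢
      rw [abs_of_nonneg (by linarith)]
      ring
    · intro b hb hb1
      have := key (conj om) (Eis_conj ⟨0, 1, by simp⟩) b hb
        (by rw [hb1, Complex.conj_re]; unfold om; norm_num)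
      have e : conj (conj om) = ⟨-1 / 2, - -Real.sqrt 3 / 2⟩ := by
        rw [Complex.conj_conj]
        unfold om
        apply Complex.ext
        · rfl
        · dsimp only
          ring
      rwa [e] at this

theorem psi_one {u : ℝ} (h : 1 < u) : psi u = 1 := by
  unfold psi
  rw [if_pos h]

/-- module LOW (the results of the modules ALG and RED are hypotheses) -/
theorem lower_P_aux
    (uval_act : ∀ {g : V3 ≃ₗ[ℂ] V3}, g ∈ UG → ∀ (w : V3) {p : Pt},
      p ∈ SD → uval w (act g p) = uval (g⁻¹ w) p)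
    (uval_w0 : ∀ p : Pt, uval w0 p = 1 / hgt p)
    (reduce : ∀ {p : Pt}, p ∈ SD → ∃ γ ∈ Gam,
      (∀ w ∈ Orb, 1 / hgt (act γ p) ≤ uval w (act γ p)) ∧
      (∀ b ∈ Eis, ‖(act γ p).2‖ ≤ ‖(act γ p).2 - b‖) ∧ ‖(act γ p).2‖ ^ 2 ≤ 1 / 3 ∧
      |(act γ p).1.im| ≤ Real.sqrt 3 / 2 ∧ 1 ≤ hgt (act γ p))
    {p : Pt} (hp : p ∈ SD) (hno : ∀ w ∈ Orb, uval w p ≠ 1) :
    ENNReal.ofReal (4 * 36) ≤
      ∑' w : Orb, ENNReal.ofReal (muP (1 / uval w p) * psi (1 / uval w p)) := by
  obtain ⟨γ, hγ, hmin, -, hd, hz, h1⟩ := reduce hp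
  rw [← sum_reduce uval_act hγ hp (fun u => ENNReal.ofReal (muP (1 / u) * psi (1 / u)))]
  set q : Pt := act γ p with hq
  have hu : 1 < hgt q := by
    refine lt_of_le_of_ne h1 (fun h => ?_)
    refine hno (γ⁻¹ w0) ⟨γ⁻¹, Gam.inv_mem hγ, rfl⟩ ?_
    rw [← uval_act hγ.1 w0 hp, uval_w0, ← hq, ← h]
    norm_num
  have hupos : 0 < hgt q := by linarith
  have hw0 : muP (1 / uval w0 q) * psi (1 / uval w0 q) = muP (hgt q) := by
    rw [uval_w0, one_div_one_div, psi_one hu, mul_one]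
  have hlow := muP_lower hu.le
  rcases le_or_gt (hgt q) (48 / 35) with hc | hc
  · obtain ⟨w, hw, hw1, hw2⟩ := exists_w hu hc hd hz
    refine le_trans ?_ (two_cusps hw hw1 q
      (fun u => ENNReal.ofReal (muP (1 / u) * psi (1 / u))))
    have hpos : 0 < uval w q := lt_of_lt_of_le (by positivity) (hmin w hw)
    have hw3 : 1 < 1 / uval w q := by
      rw [lt_div_iff₀ hpos]
      linarith
    have hlow2 := muP_lower hw3.le
    rw [hw0, psi_one hw3, mul_one, ← ENNReal.ofReal_add (by linarith) (by linarith)]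
    have e6 : (6 : ENNReal) = ENNReal.ofReal 6 := by simp
    rw [e6, ← ENNReal.ofReal_mul (by norm_num)]
    refine ENNReal.ofReal_le_ofReal ?_
    linarith
  · have hmem : ((0, 0, 1) : V3) ∈ Orb := vec_mem Eis.zero_mem Eis.zero_mem (by simp)
    refine le_trans ?_ (two_cusps hmem rfl q
      (fun u => ENNReal.ofReal (muP (1 / u) * psi (1 / u))))
    rw [hw0, mul_add]
    refine le_trans ?_ le_self_add
    have e6 : (6 : ENNReal) = ENNReal.ofReal 6 := by simp
    rw [e6, ← ENNReal.ofReal_mul (by norm_num)]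
    refine ENNReal.ofReal_le_ofReal ?_
    linarith

end Pool.Agent.Helper37.Pic
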